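import Pool.Agent.Helper81.Tok2.Goals

/-!
# Token machines with free silent steps: the numeric extensions are linear-space functions
-/

namespace Pool.Agent.Helper75.Tok2

open Pool.Agent.Helper65.LinSpace Pool.Agent.Helper81.Tok2 Finset

variable {α β : Type} [Ctx α] [Ctx β]

theorem lsm_comp {m : α → Mach} {C : α → ℕ} (h : LSM m C) {f : β → α} (hf : LS f) :
    LSM (fun z => m (f z)) (fun z => C (f z)) where
  σ := LS.comp (g := fun z => (m z).σ) h.σ hf
  a := LS.comp (g := fun z => (m z).a) h.a hf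
  b := LS.comp (g := fun z => (m z).b) h.b hf
  G := LS.comp (g := fun z => (m z).G) h.G hf
  h := LS.comp (g := fun z => (m z).h) h.h hf
  A := LS.comp (g := fun z : α × ℕ => (m z.1).A z.2) (f := fun z : β × ℕ => (f z.1, z.2)) h.A
    (by fun_prop)
  N := LS.comp (g := fun z : α × ℕ × ℕ => (m z.1).N z.2.1 z.2.2)
    (f := fun z : β × ℕ × ℕ => (f z.1, z.2)) h.N (by fun_prop)
  W := LS.comp (g := fun z : α × ℕ × ℕ => (m z.1).W z.2.1 z.2.2)
    (f := fun z : β × ℕ × ℕ => (f z.1, z.2)) h.W (by fun_prop)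
  q0 := LS.comp (g := fun z => (m z).q0) h.q0 hf
  M0 := LS.comp (g := fun z : α × ℕ => (m z.1).M0 z.2) (f := fun z : β × ℕ => (f z.1, z.2)) h.M0
    (by fun_prop)
  bd := LS.comp (g := C) h.bd hf
  ok z := h.ok (f z)
  hC z := h.hC (f z)
  hS z := h.hS (f z)

section

variable {m : α → Mach} {C : α → ℕ}

theorem pow_le_C (h : LSM m C) (z : α) {n : ℕ} (hn : n ≤ (m z).nv (m z).G) : 2 ^ n ≤ C z :=
  (Nat.pow_le_pow_right (by norm_num) hn).trans (h.hC z)

theorem σ_le (m : Mach) : m.σ ≤ m.nv m.G := by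
  unfold Mach.nv Mach.wc
  omega

theorem a_le (m : Mach) : m.a ≤ m.nv m.G := by
  unfold Mach.nv Mach.wc
  omega

theorem ls_pow (h : LSM m C) : LS (fun z => 2 ^ (m z).σ) :=
  LS.pow_of_le (f := fun _ => 2) (LS.const 2) h.σ h.bd fun z => pow_le_C h z (σ_le _)

theorem ls_pow1 (h : LSM m C) : LS (fun z => 2 ^ ((m z).σ + 1)) := by
  have h1 := ls_pow h
  refine LS.congr (LS.mul h1 (LS.const 2)) fun z => ?_
  rw [pow_succ]

theorem ls_A (h : LSM m C) {q : α → ℕ} (hq : LS q) : LS (fun z => (m z).A (q z)) :=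
  LS.comp (g := fun z : α × ℕ => (m z.1).A z.2) (f := fun z => (z, q z)) h.A
    (LS.prodMk LS.id hq)

theorem ls_N (h : LSM m C) {q v : α → ℕ} (hq : LS q) (hv : LS v) :
    LS (fun z => (m z).N (q z) (v z)) :=
  LS.comp (g := fun z : α × ℕ × ℕ => (m z.1).N z.2.1 z.2.2) (f := fun z => (z, q z, v z)) h.N
    (LS.prodMk LS.id (LS.prodMk hq hv))

theorem ls_W (h : LSM m C) {q v : α → ℕ} (hq : LS q) (hv : LS v) :
    LS (fun z => (m z).W (q z) (v z)) :=
  LS.comp (g := fun z : α × ℕ × ℕ => (m z.1).W z.2.1 z.2.2) (f := fun z => (z, q z, v z)) h.W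
    (LS.prodMk LS.id (LS.prodMk hq hv))

theorem ls_slt (h : LSM m C) {q v : α → ℕ} (hq : LS q) (hv : LS v) :
    LS (fun z => (m z).slt (q z) (v z)) := by
  have h1 := ls_W h hq hv
  have h2 := ls_N h hq hv
  unfold Mach.slt
  fun_prop

theorem ls_wn (h : LSM m C) : LS (fun z => (m z).wn) := by
  have h1 := h.σ
  have h2 := h.b
  unfold Mach.wn
  fun_prop

theorem ls_wc (h : LSM m C) : LS (fun z => (m z).wc) := by
  have h1 := h.σ
  have h2 := h.a
  unfold Mach.wc
  fun_prop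

theorem ls_nv (h : LSM m C) {i : α → ℕ} (hi : LS i) : LS (fun z => (m z).nv (i z)) := by
  have h1 := ls_wn h
  have h2 := ls_wc h
  unfold Mach.nv
  fun_prop

theorem ls_cl (h : LSM m C) {k : α → ℕ} (hk : LS k) : LS (fun z => (m z).cl (k z)) := by
  have h1 := ls_wn h
  have h2 := ls_wc h
  have h3 := h.G
  unfold Mach.cl
  fun_prop

theorem ls_divW (h : LSM m C) {i x : α → ℕ} (hi : LS i) (hx : LS x) :
    LS (fun z => x z / 2 ^ (i z * (m z).wn)) := by
  have h1 := h.b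
  refine LS.congr (LS.divPow (ls_pow h) hx (LS.mul hi (LS.mul (LS.const 2) h1))) fun z => ?_
  congr 1
  rw [← pow_mul]
  congr 1
  unfold Mach.wn
  ring

theorem ls_s0 (h : LSM m C) {i x : α → ℕ} (hi : LS i) (hx : LS x) :
    LS (fun z => (m z).s0 (i z) (x z)) := by
  unfold Mach.s0
  exact LS.mod (ls_divW h hi hx) (ls_pow h)

theorem ls_c0 (h : LSM m C) {i x : α → ℕ} (hi : LS i) (hx : LS x) :
    LS (fun z => (m z).c0 (i z) (x z)) := by
  unfold Mach.c0
  exact LS.div (ls_divW h hi hx) (ls_pow h)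

theorem ls_ez (h : LSM m C) {i x t : α → ℕ} (hi : LS i) (hx : LS x) (ht : LS t) :
    LS (fun z => (m z).ez (i z) (x z) (t z)) := by
  have h1 := ls_pow h
  have h2 := ls_s0 h hi hx
  unfold Mach.ez
  fun_prop

theorem ls_ev (h : LSM m C) {i y x t : α → ℕ} (hi : LS i) (hy : LS y) (hx : LS x) (ht : LS t) :
    LS (fun z => (m z).ev (i z) (y z) (x z) (t z)) := by
  have h1 := ls_pow h
  have h2 := ls_ez h hi hx ht
  have h3 := h.b
  unfold Mach.ev
  fun_prop

theorem cont_le (m : Mach) (hm : m.Ok) (i y w x n : ℕ) : m.cont i y w x n ≤ w + 2 ^ m.a := by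
  unfold Mach.cont
  induction n with
  | zero =>
    refine le_trans ?_ (Nat.le_add_right _ _)
    exact (Nat.div_le_self _ _).trans (Nat.div_le_self _ _)
  | succ n ih =>
    rw [nrec_succ]
    generalize nrec (m.c0 i w)
      (fun t c => ifz (eq01 (m.A (m.ev i y w (2 * t + 1))) x) c
        (m.W (m.ev i y w (2 * t + 1)) c)) n = c at ih ⊢
    unfold ifz
    split_ifs
    · exact ih
    · exact (hm.hW _ _).le.trans (Nat.le_add_left _ _)

theorem ls_cont (h : LSM m C) {i y w x n : α → ℕ} (hi : LS i) (hy : LS y) (hw : LS w)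
    (hx : LS x) (hn : LS n) : LS (fun z => (m z).cont (i z) (y z) (w z) (x z) (n z)) := by
  unfold Mach.cont
  have hbd := h.bd
  refine LS.nrec (G := fun z => (m z).c0 (i z) (w z)) (N := n) (C := fun z => w z + C z)
    (K := fun z t c => ifz (eq01 ((m z).A ((m z).ev (i z) (y z) (w z) (2 * t + 1))) (x z)) c
      ((m z).W ((m z).ev (i z) (y z) (w z) (2 * t + 1)) c)) (ls_c0 h hi hw) hn (by fun_prop) ?_ ?_
  · have h' : LSM (fun z : α × ℕ × ℕ => m z.1) (fun z => C z.1) := lsm_comp h LS.fst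
    have e1 : LS (fun z : α × ℕ × ℕ => (m z.1).ev (i z.1) (y z.1) (w z.1) (2 * z.2.1 + 1)) :=
      ls_ev h' (i := fun z : α × ℕ × ℕ => i z.1) (y := fun z => y z.1) (x := fun z => w z.1)
        (t := fun z => 2 * z.2.1 + 1) (by fun_prop) (by fun_prop) (by fun_prop) (by fun_prop)
    have e2 := ls_A h' e1
    have e3 := ls_W h' (v := fun z : α × ℕ × ℕ => z.2.2) e1 (by fun_prop)
    fun_prop
  · intro z j _
    refine (cont_le (m z) (h.ok z) (i z) (y z) (w z) (x z) j).trans ?_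
    exact Nat.add_le_add_left (pow_le_C h z (a_le _)) _

/-! ### The leaves -/

theorem ls_sv (h : LSM m C) : LS (fun z => (m z).sv) := by
  unfold Mach.sv
  exact LS.pow_of_le (f := fun z => 2 ^ ((m z).σ + 1)) (ls_pow1 h) h.h h.bd h.hS

theorem ls_gp (h : LSM m C) {w u : α → ℕ} (hw : LS w) (hu : LS u) :
    LS (fun z => (m z).gp (w z) (u z)) := by
  unfold Mach.gp
  exact LS.div (LS.dig (ls_pow1 h) hw hu) (LS.const 2)

theorem ls_sd (h : LSM m C) {w u : α → ℕ} (hw : LS w) (hu : LS u) :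
    LS (fun z => (m z).sd (w z) (u z)) := by
  unfold Mach.sd
  exact LS.mod (LS.dig (ls_pow1 h) hw hu) (LS.const 2)

theorem gp_le (m : Mach) (w u : ℕ) : m.gp w u ≤ 2 ^ m.σ := by
  unfold Mach.gp
  have h1 : dig (2 ^ (m.σ + 1)) w u < 2 ^ (m.σ + 1) := dig_lt (by positivity) _ _
  rw [pow_succ] at h1 ⊢
  omega

theorem pe_le (m : Mach) (e w t : ℕ) : m.pe e w t ≤ e + 2 ^ m.σ := by
  unfold Mach.pe
  induction t with
  | zero => exact Nat.le_add_right _ _
  | succ t ih =>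
    rw [nrec_succ]
    generalize nrec e (fun t c => ifz (m.sd w (m.h - 1 - t)) c (m.gp w (m.h - 1 - t))) t = c
      at ih ⊢
    unfold ifz
    split_ifs
    · exact ih
    · exact (gp_le m _ _).trans (Nat.le_add_left _ _)

theorem pf_le (m : Mach) (e w t : ℕ) : m.pf e w t ≤ e + 2 ^ m.σ := by
  unfold Mach.pf
  induction t with
  | zero => exact Nat.le_add_right _ _
  | succ t ih =>
    rw [nrec_succ]
    generalize nrec e (fun t c => ifz (m.sd w (m.h - 1 - t)) (m.gp w (m.h - 1 - t)) c) t = c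
      at ih ⊢
    unfold ifz
    split_ifs
    · exact (gp_le m _ _).trans (Nat.le_add_left _ _)
    · exact ih

theorem ls_pe (h : LSM m C) {e w t : α → ℕ} (he : LS e) (hw : LS w) (ht : LS t) :
    LS (fun z => (m z).pe (e z) (w z) (t z)) := by
  unfold Mach.pe
  have hp := ls_pow h
  refine LS.nrec (G := e) (N := t) (C := fun z => e z + 2 ^ (m z).σ)
    (K := fun z t c => ifz ((m z).sd (w z) ((m z).h - 1 - t)) c
      ((m z).gp (w z) ((m z).h - 1 - t))) he ht (by fun_prop) ?_ ?_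
  · have h' : LSM (fun z : α × ℕ × ℕ => m z.1) (fun z => C z.1) := lsm_comp h LS.fst
    have hh := h'.h
    have e1 := ls_sd h' (w := fun z : α × ℕ × ℕ => w z.1) (u := fun z => (m z.1).h - 1 - z.2.1)
      (by fun_prop) (by fun_prop)
    have e2 := ls_gp h' (w := fun z : α × ℕ × ℕ => w z.1) (u := fun z => (m z.1).h - 1 - z.2.1)
      (by fun_prop) (by fun_prop)
    fun_prop
  · intro z j _
    exact pe_le (m z) (e z) (w z) j

theorem ls_pf (h : LSM m C) {e w t : α → ℕ} (he : LS e) (hw : LS w) (ht : LS t) :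
    LS (fun z => (m z).pf (e z) (w z) (t z)) := by
  unfold Mach.pf
  have hp := ls_pow h
  refine LS.nrec (G := e) (N := t) (C := fun z => e z + 2 ^ (m z).σ)
    (K := fun z t c => ifz ((m z).sd (w z) ((m z).h - 1 - t))
      ((m z).gp (w z) ((m z).h - 1 - t)) c) he ht (by fun_prop) ?_ ?_
  · have h' : LSM (fun z : α × ℕ × ℕ => m z.1) (fun z => C z.1) := lsm_comp h LS.fst
    have hh := h'.h
    have e1 := ls_sd h' (w := fun z : α × ℕ × ℕ => w z.1) (u := fun z => (m z.1).h - 1 - z.2.1)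
      (by fun_prop) (by fun_prop)
    have e2 := ls_gp h' (w := fun z : α × ℕ × ℕ => w z.1) (u := fun z => (m z.1).h - 1 - z.2.1)
      (by fun_prop) (by fun_prop)
    fun_prop
  · intro z j _
    exact pf_le (m z) (e z) (w z) j

theorem ls_le (h : LSM m C) {y r w : α → ℕ} (hy : LS y) (hr : LS r) (hw : LS w) :
    LS (fun z => (m z).le (y z) (r z) (w z)) := by
  have hp := ls_pow h
  have hh := h.h
  unfold Mach.le
  exact ls_pe h (LS.dig hp hy (by fun_prop)) hw hh

theorem ls_lf (h : LSM m C) {y r w : α → ℕ} (hy : LS y) (hr : LS r) (hw : LS w) :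
    LS (fun z => (m z).lf (y z) (r z) (w z)) := by
  have hp := ls_pow h
  have hh := h.h
  unfold Mach.lf
  exact ls_pf h (LS.dig hp hy (by fun_prop)) hw hh

theorem ls_qy (h : LSM m C) {y v : α → ℕ} (hy : LS y) (hv : LS v) :
    LS (fun z => (m z).qy (y z) (v z)) := by
  have hp := ls_pow h
  have hs := ls_sv h
  have e1 : LS (fun z => v z / ((m z).sv + 1)) := by fun_prop
  have e2 : LS (fun z => v z % ((m z).sv + 1)) := by fun_prop
  have e3 := ls_le h hy e1 e2
  have e4 : LS (fun z => dig (2 ^ (m z).σ) (y z) (2 * (v z / ((m z).sv + 1)) + 1)) :=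
    LS.dig hp hy (by fun_prop)
  unfold Mach.qy
  exact ls_A h (LS.ifz (LS.eq01 e2 hs) e3 e4)

theorem ls_chk0 (h : LSM m C) {i y r e f w : α → ℕ} (hi : LS i) (hy : LS y) (hr : LS r)
    (he : LS e) (hf : LS f) (hw : LS w) :
    LS (fun z => (m z).chk0 (i z) (y z) (r z) (e z) (f z) (w z)) := by
  have h2 := h.b
  have e3 := ls_A h he
  have e4 : LS (fun z => (m z).cont (i z) (y z) (w z) ((m z).A (e z)) (i z * (m z).b + r z)) :=
    ls_cont h hi hy hw e3 (by fun_prop)
  have e5 := ls_slt h he e4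
  unfold Mach.chk0
  exact LS.eq01 e5 hf

theorem ls_chk1 (h : LSM m C) {i y r w : α → ℕ} (hi : LS i) (hy : LS y) (hr : LS r) (hw : LS w) :
    LS (fun z => (m z).chk1 (i z) (y z) (r z) (w z)) := by
  have h1 := ls_pow h
  have h2 := h.b
  have e1 : LS (fun z => (m z).ez (i z) (w z) (i z * (2 * (m z).b))) :=
    ls_ez h hi hw (by fun_prop)
  have e2 : LS (fun z => dig (2 ^ (m z).σ) (y z) (2 * r z + 1)) := LS.dig h1 hy (by fun_prop)
  have e3 := ls_A h e2
  have e4 : LS (fun z => (m z).cont (i z) (y z) (w z)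
      ((m z).A (dig (2 ^ (m z).σ) (y z) (2 * r z + 1))) (i z * (m z).b + r z)) :=
    ls_cont h hi hy hw e3 (by fun_prop)
  have e5 := ls_N h e2 e4
  have e6 : LS (fun z => dig (2 ^ (m z).σ) (y z) (2 * r z + 2)) := LS.dig h1 hy (by fun_prop)
  have e7 : LS (fun z => dig (2 ^ (m z).σ) (y z) 0) := LS.dig h1 hy (by fun_prop)
  unfold Mach.chk1
  exact LS.mul (LS.ifz hr (LS.eq01 e7 e1) (LS.const 1)) (LS.eq01 e6 e5)

theorem ls_bf (h : LSM m C) {i y v w : α → ℕ} (hi : LS i) (hy : LS y) (hv : LS v) (hw : LS w) :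
    LS (fun z => (m z).bf (i z) (y z) (v z) (w z)) := by
  have hs := ls_sv h
  have e1 : LS (fun z => v z / ((m z).sv + 1)) := by fun_prop
  have e2 : LS (fun z => v z % ((m z).sv + 1)) := by fun_prop
  have e3 := ls_le h hy e1 e2
  have e4 := ls_lf h hy e1 e2
  have e5 := ls_chk0 h hi hy e1 e3 e4 hw
  have e6 := ls_chk1 h hi hy e1 hw
  unfold Mach.bf
  exact LS.ifz (LS.eq01 e2 hs) e5 e6

theorem ls_top (h : LSM m C) {x w : α → ℕ} (hx : LS x) (hw : LS w) :
    LS (fun z => (m z).top (x z) (w z)) := by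
  have h1 := ls_pow h
  have h2 := h.b
  have h3 := h.G
  have e1 : LS (fun z => (m z).ez (m z).G (w z) ((m z).G * (2 * (m z).b))) :=
    ls_ez h h3 hw (by fun_prop)
  have e2 : LS (fun z => (m z).cont (m z).G 0 (w z) (x z) ((m z).G * (m z).b)) :=
    ls_cont h h3 (y := fun _ => 0) (by fun_prop) hw hx (by fun_prop)
  unfold Mach.top
  fun_prop

theorem ls_varN (h : LSM m C) {i j k : α → ℕ} {X : α → ℕ → ℕ} (hi : LS i) (hj : LS j) (hk : LS k)
    (hX : LS (fun z : α × ℕ => X z.1 z.2)) :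
    LS (fun z => (m z).varN (i z) (X z) (fun o => X z ((m z).cl (k z) + o)) (j z)) := by
  have h1 := ls_wn h
  have h2 := ls_cl h hk
  have e1 : LS (fun z => X z ((m z).cl (k z) + (j z - i z * (m z).wn))) :=
    LS.comp (g := fun z : α × ℕ => X z.1 z.2)
      (f := fun z => (z, (m z).cl (k z) + (j z - i z * (m z).wn))) hX (by fun_prop)
  have e2 : LS (fun z => X z (j z)) :=
    LS.comp (g := fun z : α × ℕ => X z.1 z.2) (f := fun z => (z, j z)) hX (by fun_prop)
  unfold Mach.varN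
  fun_prop

/-! ### Folding -/

theorem cvN_le (m : Mach) {p : ℕ} (hp : 0 < p) (w c : ℕ) (sa sl : ℕ → ℕ) (u : ℕ) :
    m.cvN p w c sa sl u ≤ c + p := by
  unfold Mach.cvN
  cases u with
  | zero => exact Nat.le_add_right _ _
  | succ u =>
    rw [nrec_succ]
    exact (Nat.mod_lt _ hp).le.trans (Nat.le_add_left _ _)

theorem ls_cvN (h : LSM m C) {p w c u : α → ℕ} {Y Z : α → ℕ → ℕ} (hp : LS p)
    (hp0 : ∀ z, 0 < p z) (hw : LS w) (hc : LS c) (hu : LS u)
    (hY : LS (fun z : α × ℕ => Y z.1 z.2)) (hZ : LS (fun z : α × ℕ => Z z.1 z.2)) :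
    LS (fun z => (m z).cvN (p z) (w z) (c z) (Y z) (Z z) (u z)) := by
  unfold Mach.cvN
  refine LS.nrec (G := c) (N := u) (C := fun z => c z + p z)
    (K := fun z t v => (ifz ((m z).gp (w z) t) 0 (Y z t) + Z z t * v) % p z) hc hu
    (by fun_prop) ?_ ?_
  · have h' : LSM (fun z : α × ℕ × ℕ => m z.1) (fun z => C z.1) := lsm_comp h LS.fst
    have e1 := ls_gp h' (w := fun z : α × ℕ × ℕ => w z.1) (u := fun z => z.2.1)
      (by fun_prop) (by fun_prop)
    have e2 : LS (fun z : α × ℕ × ℕ => Y z.1 z.2.1) :=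
      LS.comp (g := fun z : α × ℕ => Y z.1 z.2) (f := fun z : α × ℕ × ℕ => (z.1, z.2.1)) hY
        (by fun_prop)
    have e3 : LS (fun z : α × ℕ × ℕ => Z z.1 z.2.1) :=
      LS.comp (g := fun z : α × ℕ => Z z.1 z.2) (f := fun z : α × ℕ × ℕ => (z.1, z.2.1)) hZ
        (by fun_prop)
    fun_prop
  · intro z j _
    exact cvN_le (m z) (hp0 z) (w z) (c z) (Y z) (Z z) j

theorem ls_rch (h : LSM m C) {w u : α → ℕ} (hw : LS w) (hu : LS u) :
    LS (fun z => (m z).rch (w z) (min (u z) (m z).h)) := by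
  have hh := h.h
  have hmin : LS (fun z => min (u z) (m z).h) := LS.min hu hh
  have e1 : LS (fun z => (2 ^ ((m z).σ + 1)) ^ min (u z) (m z).h) :=
    LS.pow_of_le (f := fun z => 2 ^ ((m z).σ + 1)) (ls_pow1 h) hmin h.bd fun z =>
      le_trans (Nat.pow_le_pow_right (by positivity) (min_le_right _ _)) (h.hS z)
  unfold Mach.rch
  fun_prop

end

theorem ls_fhG {p N q C : α → ℕ} {F X : α → ℕ → ℕ} (hp : LS p) (hp0 : ∀ z, 0 < p z) (hN : LS N)
    (hq : LS q) (hC : LS C) (hb : ∀ z, 2 ^ N z ≤ C z) (hF : LS (fun z : α × ℕ => F z.1 z.2))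
    (hX : LS (fun z : α × ℕ => X z.1 z.2)) :
    LS (fun z => fhG (p z) (N z) (F z) (q z) (X z)) := by
  unfold fhG
  refine LS.sumMod (f := fun z u => dig 2 (F z u) (q z) *
    ((∏ j ∈ range (N z), ifz (dig 2 u j) (p z + 1 - X z j) (X z j)) % p z)) ?_ ?_ hp hp0
  · have h1 : LS (fun z : α × ℕ => (∏ j ∈ range (N z.1), ifz (dig 2 z.2 j)
        (p z.1 + 1 - X z.1 j) (X z.1 j)) % p z.1) := by
      refine LS.prodMod (f := fun (z : α × ℕ) j => ifz (dig 2 z.2 j)
        (p z.1 + 1 - X z.1 j) (X z.1 j)) ?_ (by fun_prop) (by fun_prop) (fun z => hp0 z.1)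
      have e2 : LS (fun z : (α × ℕ) × ℕ => X z.1.1 z.2) :=
        LS.comp (g := fun z : α × ℕ => X z.1 z.2) (f := fun z : (α × ℕ) × ℕ => (z.1.1, z.2)) hX
          (by fun_prop)
      fun_prop
    exact LS.mul (LS.dig (by fun_prop) hF (by fun_prop)) h1
  · exact LS.pow_of_le (f := fun _ => 2) (by fun_prop) hN hC hb

theorem nv_mono (m : Mach) {i j : ℕ} (h : i ≤ j) : m.nv i ≤ m.nv j := by
  unfold Mach.nv
  exact Nat.add_le_add_right (Nat.mul_le_mul_right _ h) _

/-- Packet LSFN. -/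
theorem LSFN : LSFN_stmt := by
  intro α _ m C p i y v u q k w c X Y Z hm hp hp0 hi hy hv hu hq hk hw hc hX hY hZ
  have hm' : LSM (fun z : α × ℕ => m z.1) (fun z => C z.1) := lsm_comp hm LS.fst
  have hG := hm.G
  have hG' := hm'.G
  have hh := hm.h
  have hs := ls_sv hm
  have hX' : LS (fun z : (α × ℕ) × ℕ => X z.1.1 z.2) :=
    LS.comp (g := fun z : α × ℕ => X z.1 z.2) (f := fun z : (α × ℕ) × ℕ => (z.1.1, z.2)) hX
      (by fun_prop)
  have hmin : LS (fun z => min (u z) (m z).h) := LS.min hu hh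
  have hY' : LS (fun z => Y z (min (u z) (m z).h)) :=
    LS.comp (g := fun z : α × ℕ => Y z.1 z.2) (f := fun z => (z, min (u z) (m z).h)) hY
      (LS.prodMk LS.id hmin)
  have hZ' : LS (fun z => Z z (min (u z) (m z).h)) :=
    LS.comp (g := fun z : α × ℕ => Z z.1 z.2) (f := fun z => (z, min (u z) (m z).h)) hZ
      (LS.prodMk LS.id hmin)
  have hrch := ls_rch hm hw hu
  have hsd := ls_sd hm hw hmin
  refine ⟨?_, ?_, ls_qy hm hy hv, hs, ?_, ?_, ?_⟩
  · refine ls_fhG (N := fun z => (m z).nv (min (i z) (m z).G))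
      (F := fun z => (m z).bf (i z) (y z) (v z)) (q := fun _ => 0)
      (X := fun z => (m z).varN (i z) (X z) fun o => X z ((m z).cl (k z) + o)) hp hp0
      (ls_nv hm (LS.min hi hG)) (by fun_prop) hm.bd
      (fun z => pow_le_C hm z (nv_mono _ (min_le_right _ _))) ?_ ?_
    · exact ls_bf hm' (i := fun z : α × ℕ => i z.1) (y := fun z => y z.1) (v := fun z => v z.1)
        (w := fun z => z.2) (by fun_prop) (by fun_prop) (by fun_prop) (by fun_prop)
    · exact ls_varN hm' (i := fun z : α × ℕ => i z.1) (j := fun z => z.2) (k := fun z => k z.1)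
        (X := fun z => X z.1) (by fun_prop) (by fun_prop) (by fun_prop) hX'
  · refine ls_fhG (N := fun z => (m z).nv (m z).G)
      (F := fun z => (m z).top (u z))
      (X := fun z => (m z).varN (m z).G (X z) fun o => X z ((m z).cl (k z) + o)) hp hp0
      (ls_nv hm hG) hq hm.bd (fun z => hm.hC z) ?_ ?_
    · exact ls_top hm' (x := fun z : α × ℕ => u z.1) (w := fun z => z.2) (by fun_prop)
        (by fun_prop)
    · exact ls_varN hm' (i := fun z : α × ℕ => (m z.1).G) (j := fun z => z.2)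
        (k := fun z => k z.1) (X := fun z => X z.1) hG' (by fun_prop) (by fun_prop) hX'
  · unfold Mach.nslN
    exact LS.ifz (LS.mul (LS.lt01 hw hs) (LS.mul hrch (LS.eq01 hsd (LS.const 0)))) hZ'
      (ls_cvN hm hp hp0 hw hc hmin hY hZ)
  · unfold Mach.nsaN
    exact LS.ifz (LS.mul (LS.lt01 hw hs) (LS.mul hrch (LS.eq01 hsd (LS.const 1)))) hY'
      (ls_cvN hm hp hp0 hw hc (LS.add hmin (LS.const 1)) hY hZ)
  · have e1 := ls_cvN hm hp hp0 hw hc hh hY hZ
    unfold Mach.nacN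
    exact LS.ifz (LS.eq01 hw hs) (LS.ifz (LS.eq01 (LS.add hw (LS.const 1)) hs) hq
      (LS.mul hq e1)) (LS.mul hq hc)

end Pool.Agent.Helper75.Tok2
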